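import Pool.Agent.Lib.MP_465591_an.Spec

/-!
# MP_465591_an, THEOREM N, PART C: the chain (section 5 of note 4177)

Author helper43.  Interface: `S_H` (LEMMA H, part H) and `S_Cmain` (the conclusion of part C).
-/

set_option autoImplicit false

open Metric Set Filter Topology

namespace Pool.Agent.Lib.MP_465591_an.NC

/-- The (real) divergence at `c` of the vector field `v`. -/
noncomputable def dvg (v : ℂ → ℂ) (c : ℂ) : ℝ :=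
  (fderiv ℝ v c 1).re + (fderiv ℝ v c Complex.I).im

/-- **LEMMA H** (section 4 of note 4177). -/
def S_H : Prop :=
  ∀ C1 c1 ε : ℝ, 0 < C1 → 0 < c1 → 0 < ε → ∃ K : ℝ, 0 < K ∧
    ∀ (C R : ℝ) (P nn : ℂ → ℂ) (c0 : ℂ), 0 < C → C < R → DifferentiableOn ℂ P (ball 0 R) →
    (∀ z : ℂ, C < ‖z‖ → ‖z‖ < R → ∃ v : ℂ → ℂ, ContDiffAt ℝ 1 v (P z) ∧
      (∀ᶠ z' in 𝓝 z, nn z' = v (P z')) ∧ ‖v (P z)‖ ^ 2 ≤ C1 * dvg v (P z) ∧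
      (‖P z - c0‖ < ε → nn z = 0 ∨ (c1 ≤ ‖nn z‖ ∧ c1 ≤ dvg v (P z)))) →
    ε ≤ ‖P 0 - c0‖ → ∀ z : ℂ, C < ‖z‖ → ‖z‖ < R → P z = c0 → nn z ≠ 0 →
    ‖z‖ < C * Real.exp K ∨ R < ‖z‖ * Real.exp K

/-- **Sch** (a), one step: a self-map of the ball with derivative `e^(-1) I` at `0`. -/
def S_Sch : Prop :=
  ∀ (n : ℕ) (h : Cn n → Cn n), DifferentiableOn ℂ h (ball 0 1) → MapsTo h (ball 0 1) (ball 0 1) →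
    h 0 = 0 → fderiv ℂ h 0 = (Complex.ofReal (Real.exp (-1))) • ContinuousLinearMap.id ℂ (Cn n) →
    ∀ z ∈ ball (0 : Cn n) 1, ‖h z‖ ≤ ‖z‖ * ((Real.exp (-1) + ‖z‖) / (1 + Real.exp (-1) * ‖z‖))

/-- **Dec** (a): the preimages under `L N` of the points `L 0 z`, `‖z‖ ≤ s`, are in the ball of radius
`C e^(-N)`. -/
def S_Dec : Prop :=
  ∀ s : ℝ, 0 ≤ s → s < 1 → ∃ C : ℝ, 0 < C ∧ ∀ (n : ℕ) (L : ℝ → Cn n → Cn n), Chain n L →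
    ∀ (N : ℕ) (z w : Cn n), ‖z‖ ≤ s → ‖w‖ < 1 → L N w = L 0 z → ‖w‖ ≤ C * Real.exp (-N)

/-- **DesA** (b): descent for an annulus. -/
def S_DesA : Prop :=
  ∀ (n : ℕ) (L : ℝ → Cn n → Cn n), Chain n L → ∀ (s a b : ℝ) (γ : ℂ → Cn n), 0 ≤ s → s < 1 →
    0 < a → DifferentiableOn ℂ γ {x | x ≠ 0} →
    (∀ x : ℂ, ‖x‖ = a ∨ ‖x‖ = b → ∃ z : Cn n, ‖z‖ ≤ s ∧ L 0 z = γ x) → ∀ T : ℝ, 0 ≤ T →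
    (∀ x : ℂ, a ≤ ‖x‖ → ‖x‖ ≤ b → γ x ∈ L T '' ball 0 1) →
    ∀ x : ℂ, a ≤ ‖x‖ → ‖x‖ ≤ b → γ x ∈ L 0 '' ball 0 1

/-- **Con** (c): the annulus meets the image under `L N` of every sphere between the two radii. -/
def S_Con : Prop :=
  ∀ (n : ℕ) (L : ℝ → Cn n → Cn n), Chain n L → ∀ (a b : ℝ) (γ : ℂ → Cn n), 0 < a → a ≤ b →
    DifferentiableOn ℂ γ {x | x ≠ 0} → ∀ (T ρ : ℝ), 0 ≤ T → ρ < 1 →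
    (∀ x : ℂ, ‖x‖ = a → ∃ w : Cn n, ‖w‖ < ρ ∧ L T w = γ x) →
    (¬ ∀ x : ℂ, a ≤ ‖x‖ → ‖x‖ ≤ b → γ x ∈ L T '' ball 0 1) →
    ∃ x : ℂ, a ≤ ‖x‖ ∧ ‖x‖ ≤ b ∧ ∃ w : Cn n, ‖w‖ = ρ ∧ L T w = γ x

/-- **Cmain** (the conclusion of part C; from `S_H`, `S_Dec`, `S_DesA`, `S_Con`).  `F`: the map, `K0`: the
compact set, `γ`: the parametrization of the annulus `Aa`, `cc z = c(z)`, `NN z = NN(c(z), log |z₁|)`. -/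
def S_Cmain : Prop :=
  ∀ (n : ℕ) (F : Cn n → Cn n) (s a b : ℝ) (γ : ℂ → Cn n) (K0 : Set (Cn n)) (cc NN : Cn n → ℂ)
    (c0 : ℂ) (C1 c1 ε : ℝ), 0 ≤ s → s < 1 → 0 < a → a ≤ b → 0 < C1 → 0 < c1 → 0 < ε →
    DifferentiableOn ℂ γ {x | x ≠ 0} → Differentiable ℂ cc → K0 ⊆ F '' closedBall 0 s →
    (∀ x : ℂ, ‖x‖ = a ∨ ‖x‖ = b → γ x ∈ K0) →
    (∃ x : ℂ, a ≤ ‖x‖ ∧ ‖x‖ ≤ b ∧ γ x ∉ F '' ball 0 1) →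
    (∀ x : ℂ, a ≤ ‖x‖ → ‖x‖ ≤ b → cc (γ x) = c0 ∧ (γ x ∉ K0 → NN (γ x) ≠ 0)) →
    (∀ z : Cn n, z ∉ K0 → ∃ v : ℂ → ℂ, ContDiffAt ℝ 1 v (cc z) ∧
      (∀ᶠ z' in 𝓝 z, NN z' = v (cc z')) ∧ ‖v (cc z)‖ ^ 2 ≤ C1 * dvg v (cc z) ∧
      (‖cc z - c0‖ < ε → NN z = 0 ∨ (c1 ≤ ‖NN z‖ ∧ c1 ≤ dvg v (cc z)))) →
    ε ≤ ‖cc 0 - c0‖ →
    ¬ ∃ L : ℝ → Cn n → Cn n, Chain n L ∧ EqOn (L 0) F (ball 0 1)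

end Pool.Agent.Lib.MP_465591_an.NC
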