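import Pool.Agent.Lib.MP_465591_an.N.C.Spec

/-!
# MP_465591_an, THEOREM N, part C: descent for an annulus (`S_DesA`), connectedness (`S_Con`)
-/

set_option autoImplicit false

open Metric Set Filter Topology

namespace Pool.Agent.Lib.MP_465591_an.NC

namespace DesAux

/-- The open annulus. -/
def U (a b : ℝ) : Set ℂ := {x | a < ‖x‖ ∧ ‖x‖ < b}

theorem isOpen_U (a b : ℝ) : IsOpen (U a b) :=
  (isOpen_lt continuous_const continuous_norm).inter (isOpen_lt continuous_norm continuous_const)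

theorem closure_U (a b : ℝ) : closure (U a b) ⊆ {x | a ≤ ‖x‖ ∧ ‖x‖ ≤ b} := by
  apply closure_minimal
  · intro x hx
    exact ⟨hx.1.le, hx.2.le⟩
  · exact (isClosed_le continuous_const continuous_norm).inter
      (isClosed_le continuous_norm continuous_const)

theorem frontier_U (a b : ℝ) (x : ℂ) (hx : x ∈ frontier (U a b)) : ‖x‖ = a ∨ ‖x‖ = b := by
  rw [frontier, (isOpen_U a b).interior_eq] at hx
  obtain ⟨h1, h2⟩ := closure_U a b hx.1
  by_contra hcon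
  have h3 : ‖x‖ ≠ a := fun h => hcon (Or.inl h)
  have h4 : ‖x‖ ≠ b := fun h => hcon (Or.inr h)
  exact hx.2 ⟨lt_of_le_of_ne h1 (Ne.symm h3), lt_of_le_of_ne h2 h4⟩

theorem bounded_U (a b : ℝ) : Bornology.IsBounded (U a b) := by
  refine (isBounded_ball (x := (0 : ℂ)) (r := b)).subset ?_
  intro x hx
  rw [mem_ball_zero_iff]
  exact hx.2

/-- One step of the descent. -/
theorem step (h1 : S_Inv) (h2 : S_Near) (h4 : S_Tr) (n : ℕ) (L : ℝ → Cn n → Cn n)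
    (hL : Chain n L) (ρ₀ a b δ : ℝ) (γ : ℂ → Cn n) (hρ1 : ρ₀ < 1) (ha : 0 < a)
    (hγ : DifferentiableOn ℂ γ {x | x ≠ 0})
    (hc : ∀ x : ℂ, ‖x‖ = a ∨ ‖x‖ = b → ∃ z : Cn n, ‖z‖ ≤ ρ₀ ∧ L 0 z = γ x)
    (hδ : ∀ (n : ℕ) (h : Cn n → Cn n) (τ : ℝ), 0 ≤ τ → τ ≤ δ →
      DifferentiableOn ℂ h (ball 0 1) → MapsTo h (ball 0 1) (ball 0 1) → h 0 = 0 →
      fderiv ℂ h 0 = (Complex.ofReal (Real.exp (-τ))) • ContinuousLinearMap.id ℂ (Cn n) →
      (∀ W ⊆ ball (0 : Cn n) 1, IsOpen W → IsOpen (h '' W)) → closedBall 0 ρ₀ ⊆ h '' ball 0 1)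
    (s t : ℝ) (hs : 0 ≤ s) (hst : s ≤ t) (hts : t ≤ s + δ)
    (ht : ∀ x : ℂ, a ≤ ‖x‖ → ‖x‖ ≤ b → γ x ∈ L t '' ball 0 1) (x : ℂ) (hx : a ≤ ‖x‖)
    (hx' : ‖x‖ ≤ b) : γ x ∈ L s '' ball 0 1 := by
  have ht0 : 0 ≤ t := hs.trans hst
  obtain ⟨hopen, g, hg, hgf⟩ := h1 n (L t) (ball 0 1) isOpen_ball (hL.diff t ht0) (hL.inj t ht0)
  obtain ⟨h₀, hd₀, hm₀, hz₀, hdd₀, -, hL₀⟩ := h4 n L hL 0 t le_rfl ht0
  obtain ⟨h, hd, hm, hz, hdd, ho, hLs⟩ := h4 n L hL s t hs hst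
  have hsub := hδ n h (t - s) (by linarith) (by linarith) hd hm hz hdd ho
  have hdiff : DifferentiableOn ℂ (fun x : ℂ => g (γ x)) (closure (U a b)) := by
    refine hg.comp (t := L t '' ball 0 1) ?_ ?_
    · refine hγ.mono fun y hy => ?_
      have h3 := (closure_U a b hy).1
      intro hy0
      rw [hy0, norm_zero] at h3
      linarith
    · intro y hy
      exact ht y (closure_U a b hy).1 (closure_U a b hy).2
  have hdc : DiffContOnCl ℂ (fun x : ℂ => g (γ x)) (U a b) := hdiff.diffContOnCl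
  have hbdry : ∀ y : ℂ, ‖y‖ = a ∨ ‖y‖ = b → ‖g (γ y)‖ ≤ ρ₀ := by
    intro y hy
    obtain ⟨z, hzρ, hzy⟩ := hc y hy
    have hz1 : z ∈ ball (0 : Cn n) 1 := by
      rw [mem_ball_zero_iff]
      linarith
    rw [← hzy, ← hL₀ z hz1, hgf (h₀ z) (hm₀ hz1)]
    exact (h2 n h₀ (t - 0) (by linarith) hd₀ hm₀ hz₀ hdd₀ z hz1).1.trans hzρ
  have hbd : ‖g (γ x)‖ ≤ ρ₀ := by
    by_cases h5 : ‖x‖ = a ∨ ‖x‖ = b
    · exact hbdry x h5
    · have h3 : ‖x‖ ≠ a := fun h => h5 (Or.inl h)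
      have h4 : ‖x‖ ≠ b := fun h => h5 (Or.inr h)
      refine Complex.norm_le_of_forall_mem_frontier_norm_le (f := fun x : ℂ => g (γ x))
        (bounded_U a b) hdc (fun y hy => hbdry y (frontier_U a b y hy)) ?_
      exact subset_closure ⟨lt_of_le_of_ne hx (Ne.symm h3), lt_of_le_of_ne hx' h4⟩
  obtain ⟨y, hy, hyx⟩ := ht x hx hx'
  obtain ⟨w, hw, hwx⟩ := hsub (show g (γ x) ∈ closedBall 0 ρ₀ by simpa using hbd)
  refine ⟨w, hw, ?_⟩
  rw [← hLs w hw, hwx, ← hyx, hgf y hy]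

end DesAux

open DesAux in
theorem t_DesA (h1 : S_Inv) (h2 : S_Near) (h3 : S_Sur) (h4 : S_Tr) : S_DesA := by
  intro n L hL ρ₀ a b γ hρ0 hρ1 ha hγ hc T hT hdisc
  obtain ⟨δ, hδ0, hδ⟩ := h3 ρ₀ hρ0 hρ1
  have key : ∀ (j : ℕ) (T : ℝ), 0 ≤ T → T ≤ j * δ →
      (∀ x : ℂ, a ≤ ‖x‖ → ‖x‖ ≤ b → γ x ∈ L T '' ball 0 1) →
      ∀ x : ℂ, a ≤ ‖x‖ → ‖x‖ ≤ b → γ x ∈ L 0 '' ball 0 1 := by
    intro j
    induction j with
    | zero =>
      intro T hT hTj hd
      have : T = 0 := le_antisymm (by simpa using hTj) hT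
      rwa [this] at hd
    | succ j ih =>
      intro T hT hTj hd
      have hjδ : 0 ≤ (j : ℝ) * δ := by positivity
      push_cast at hTj
      refine ih (max 0 (T - δ)) (le_max_left _ _) (max_le hjδ (by linarith)) ?_
      exact step h1 h2 h4 n L hL ρ₀ a b δ γ hρ1 ha hγ hc hδ (max 0 (T - δ)) T (le_max_left _ _)
        (max_le hT (by linarith)) (by linarith [le_max_right 0 (T - δ)]) hd
  obtain ⟨j, hj⟩ := exists_nat_ge (T / δ)
  exact key j T hT (by rwa [div_le_iff₀ hδ0] at hj) hdisc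

/-- The closed annulus is connected. -/
theorem annulus_conn (a b : ℝ) (ha : 0 < a) : IsPreconnected {x : ℂ | a ≤ ‖x‖ ∧ ‖x‖ ≤ b} := by
  by_cases hab : a ≤ b
  · have e : {x : ℂ | a ≤ ‖x‖ ∧ ‖x‖ ≤ b} = Complex.exp '' {w : ℂ | Real.log a ≤ w.re ∧
        w.re ≤ Real.log b} := by
      have hb : 0 < b := lt_of_lt_of_le ha hab
      ext x
      constructor
      · rintro ⟨h1, h2⟩
        have hx : x ≠ 0 := by
          rintro rfl
          rw [norm_zero] at h1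
          linarith
        have hx0 : 0 < ‖x‖ := norm_pos_iff.2 hx
        refine ⟨Complex.log x, ⟨?_, ?_⟩, Complex.exp_log hx⟩
        · rw [Complex.log_re]
          exact Real.log_le_log ha h1
        · rw [Complex.log_re]
          exact Real.log_le_log hx0 h2
      · rintro ⟨w, ⟨h1, h2⟩, rfl⟩
        rw [mem_ofPred_eq, Complex.norm_exp]
        refine ⟨?_, ?_⟩
        · rw [← Real.exp_log ha]
          exact Real.exp_le_exp.2 h1
        · rw [← Real.exp_log hb]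
          exact Real.exp_le_exp.2 h2
    rw [e]
    refine IsPreconnected.image ?_ _ Complex.continuous_exp.continuousOn
    apply Convex.isPreconnected
    exact (convex_halfSpace_re_ge _).inter (convex_halfSpace_re_le _)
  · have e : {x : ℂ | a ≤ ‖x‖ ∧ ‖x‖ ≤ b} = ∅ := by
      ext x
      simp only [mem_ofPred_eq, mem_empty_iff_false, iff_false, not_and, not_le]
      intro h
      linarith [lt_of_not_ge hab]
    rw [e]
    exact isPreconnected_empty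

theorem t_Con (h1 : S_Inv) : S_Con := by
  intro n L hL a b γ ha hab hγ T ρ hT hρ1 hin hnot
  obtain ⟨hopen, -⟩ := h1 n (L T) (ball 0 1) isOpen_ball (hL.diff T hT) (hL.inj T hT)
  set S : Set (Cn n) := γ '' {x : ℂ | a ≤ ‖x‖ ∧ ‖x‖ ≤ b} with hS
  have hγc : ContinuousOn γ {x : ℂ | a ≤ ‖x‖ ∧ ‖x‖ ≤ b} := by
    refine hγ.continuousOn.mono ?_
    rintro x ⟨h3, -⟩ hx0
    rw [hx0, norm_zero] at h3
    linarith
  have hSc : IsPreconnected S := (annulus_conn a b ha).image _ hγc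
  have hO1 : IsOpen (L T '' ball 0 ρ) := hopen _ (ball_subset_ball hρ1.le) isOpen_ball
  have hcomp : IsCompact (L T '' closedBall 0 ρ) := by
    refine (isCompact_closedBall 0 ρ).image_of_continuousOn ?_
    exact (hL.diff T hT).continuousOn.mono (closedBall_subset_ball hρ1)
  have hO2 : IsOpen (L T '' closedBall 0 ρ)ᶜ := hcomp.isClosed.isOpen_compl
  by_contra hcon
  push Not at hcon
  have hcov : S ⊆ L T '' ball 0 ρ ∪ (L T '' closedBall 0 ρ)ᶜ := by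
    rintro _ ⟨x, ⟨hx1, hx2⟩, rfl⟩
    by_cases h5 : γ x ∈ L T '' closedBall 0 ρ
    · left
      obtain ⟨w, hw, hwx⟩ := h5
      refine ⟨w, ?_, hwx⟩
      rw [mem_closedBall_zero_iff] at hw
      rw [mem_ball_zero_iff]
      exact lt_of_le_of_ne hw fun h6 => hcon x hx1 hx2 w h6 hwx
    · exact Or.inr h5
  have hm1 : (S ∩ L T '' ball 0 ρ).Nonempty := by
    obtain ⟨w, hw, hwx⟩ := hin (a : ℂ) (by rw [Complex.norm_real, Real.norm_eq_abs, abs_of_pos ha])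
    refine ⟨γ a, ⟨(a : ℂ), ⟨?_, ?_⟩, rfl⟩, w, by rwa [mem_ball_zero_iff], hwx⟩
    · rw [Complex.norm_real, Real.norm_eq_abs, abs_of_pos ha]
    · rw [Complex.norm_real, Real.norm_eq_abs, abs_of_pos ha]
      exact hab
  have hm2 : (S ∩ (L T '' closedBall 0 ρ)ᶜ).Nonempty := by
    push Not at hnot
    obtain ⟨x, hx1, hx2, hx3⟩ := hnot
    refine ⟨γ x, ⟨x, ⟨hx1, hx2⟩, rfl⟩, fun h6 => hx3 ?_⟩
    exact image_mono (closedBall_subset_ball hρ1) h6
  obtain ⟨y, -, hy1, hy2⟩ := hSc _ _ hO1 hO2 hcov hm1 hm2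
  exact hy2 (image_mono ball_subset_closedBall hy1)

end Pool.Agent.Lib.MP_465591_an.NC
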