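import Pool.Agent.Lib.MP_465591_an.N.C.Spec
import Pool.Agent.Lib.MP_465591_an.N.H.Spec

/-!
# MP_465591_an, THEOREM N, part C: the conclusion (`S_Cmain`)
-/

set_option autoImplicit false

open Metric Set Filter Topology

namespace Pool.Agent.Lib.MP_465591_an.NC

theorem t_Cmain (hH : S_H) (hDec : S_Dec) (hDesA : S_DesA) (hCon : S_Con) : S_Cmain := by
  intro n F s a b γ K0 cc NN c0 C1 c1 ε hs0 hs1 ha hab hC1 hc1 hε hγ hcc hK0 hbd hout hAa hloc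
    hP0
  rintro ⟨L, hL, hLF⟩
  obtain ⟨K, hK, hHK⟩ := hH C1 c1 ε hC1 hc1 hε
  obtain ⟨C, hC, hDecC⟩ := hDec s hs0 hs1
  obtain ⟨N, hN⟩ := exists_nat_gt (Real.log C + 2 * K)
  have hNK : C * Real.exp (2 * K) < Real.exp N := by
    have h1 : Real.exp (Real.log C + 2 * K) < Real.exp N := Real.exp_lt_exp.2 hN
    rwa [Real.exp_add, Real.exp_log hC] at h1
  have hN0 : (0 : ℝ) ≤ N := Nat.cast_nonneg N
  have hK0F : ∀ y ∈ K0, ∃ z : Cn n, ‖z‖ ≤ s ∧ L 0 z = y := by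
    intro y hy
    obtain ⟨z, hz, hzy⟩ := hK0 hy
    rw [mem_closedBall_zero_iff] at hz
    refine ⟨z, hz, ?_⟩
    rw [hLF (by rw [mem_ball_zero_iff]; linarith), hzy]
  have hL0 : L 0 '' ball 0 1 = F '' ball 0 1 := hLF.image_eq
  have hnot : ¬ ∀ x : ℂ, a ≤ ‖x‖ → ‖x‖ ≤ b → γ x ∈ L N '' ball 0 1 := by
    intro hall
    obtain ⟨x, hx1, hx2, hx3⟩ := hout
    apply hx3
    rw [← hL0]
    exact hDesA n L hL s a b γ hs0 hs1 ha hγ (fun x hx => hK0F _ (hbd x hx)) N hN0 hall x hx1 hx2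
  have heK : 1 < Real.exp K := by
    rw [← Real.exp_zero]
    exact Real.exp_lt_exp.2 hK
  have heN : 0 < Real.exp (-(N : ℝ)) := Real.exp_pos _
  have heN' : 0 < Real.exp (N : ℝ) := Real.exp_pos _
  have heNN : Real.exp (N : ℝ) * Real.exp (-(N : ℝ)) = 1 := by
    rw [← Real.exp_add, add_neg_cancel, Real.exp_zero]
  have he2K : Real.exp (2 * K) = Real.exp K * Real.exp K := by
    rw [← Real.exp_add]
    congr 1
    ring
  set ρ₁ : ℝ := C * Real.exp K with hρ₁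
  have hρ₁C : C < ρ₁ := by
    rw [hρ₁]
    nlinarith
  have hρ₁0 : 0 < ρ₁ := hC.trans hρ₁C
  have hρ₁N : ρ₁ < Real.exp N := by
    refine lt_trans ?_ hNK
    rw [he2K, hρ₁]
    have : 0 < C * Real.exp K := hρ₁0
    nlinarith
  have hρ1 : ρ₁ * Real.exp (-(N : ℝ)) < 1 := by
    rw [← heNN]
    exact mul_lt_mul_of_pos_right hρ₁N heN
  have hin : ∀ x : ℂ, ‖x‖ = a → ∃ w : Cn n, ‖w‖ < ρ₁ * Real.exp (-(N : ℝ)) ∧ L N w = γ x := by
    intro x hx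
    obtain ⟨z, hz, hzx⟩ := hK0F _ (hbd x (Or.inl hx))
    obtain ⟨w, hw, hwz⟩ := hL.mono 0 N le_rfl hN0
      (mem_image_of_mem (L 0) (show z ∈ ball (0 : Cn n) 1 by rw [mem_ball_zero_iff]; linarith))
    rw [mem_ball_zero_iff] at hw
    refine ⟨w, ?_, hwz.trans hzx⟩
    refine lt_of_le_of_lt (hDecC n L hL N z w hz hw hwz) ?_
    exact mul_lt_mul_of_pos_right hρ₁C heN
  obtain ⟨x, hx1, hx2, w, hw, hwx⟩ := hCon n L hL a b γ ha hab hγ N (ρ₁ * Real.exp (-(N : ℝ))) hN0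
    hρ1 hin hnot
  -- the disc through `w`
  set g : ℂ → Cn n := fun ζ => L N ((ζ / (ρ₁ : ℂ)) • w) with hg
  have hnorm : ∀ ζ : ℂ, ‖(ζ / (ρ₁ : ℂ)) • w‖ = ‖ζ‖ * Real.exp (-(N : ℝ)) := by
    intro ζ
    rw [norm_smul, norm_div, Complex.norm_real, Real.norm_eq_abs, abs_of_pos hρ₁0, hw]
    field_simp
  have hmaps : MapsTo (fun ζ : ℂ => (ζ / (ρ₁ : ℂ)) • w) (ball 0 (Real.exp N)) (ball 0 1) := by
    intro ζ hζ
    rw [mem_ball_zero_iff] at hζ ⊢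
    rw [hnorm, ← heNN]
    exact mul_lt_mul_of_pos_right hζ heN
  have hgd : DifferentiableOn ℂ g (ball 0 (Real.exp N)) := by
    refine (hL.diff N hN0).comp ?_ hmaps
    exact ((differentiable_id.div_const (ρ₁ : ℂ)).smul_const w).differentiableOn
  have hgK : ∀ ζ : ℂ, C < ‖ζ‖ → ‖ζ‖ < Real.exp N → g ζ ∉ K0 := by
    intro ζ h1 h2 h3
    obtain ⟨z, hz, hzx⟩ := hK0F _ h3
    have h4 : ‖(ζ / (ρ₁ : ℂ)) • w‖ < 1 := by
      have := hmaps (show ζ ∈ ball (0 : ℂ) (Real.exp N) by rwa [mem_ball_zero_iff])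
      rwa [mem_ball_zero_iff] at this
    have h5 := hDecC n L hL N z _ hz h4 hzx.symm
    rw [hnorm] at h5
    have h6 := le_of_mul_le_mul_right h5 heN
    linarith
  have hPd : DifferentiableOn ℂ (fun ζ => cc (g ζ)) (ball 0 (Real.exp N)) :=
    hcc.comp_differentiableOn hgd
  have hg0 : g 0 = 0 := by
    rw [hg]
    simp only [zero_div, zero_smul]
    exact hL.zero N hN0
  have hρn : ‖(ρ₁ : ℂ)‖ = ρ₁ := by rw [Complex.norm_real, Real.norm_eq_abs, abs_of_pos hρ₁0]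
  have hgρ : g (ρ₁ : ℂ) = γ x := by
    rw [hg]
    simp only
    rw [div_self (by exact_mod_cast hρ₁0.ne'), one_smul, hwx]
  have hgat : ∀ ζ : ℂ, ‖ζ‖ < Real.exp N → ContinuousAt g ζ := by
    intro ζ hζ
    exact (hgd.differentiableAt (isOpen_ball.mem_nhds (by rwa [mem_ball_zero_iff]))).continuousAt
  have hconc := hHK C (Real.exp N) (fun ζ => cc (g ζ)) (fun ζ => NN (g ζ)) c0 hC
    (hρ₁C.trans hρ₁N) hPd
    (by
      intro ζ h1 h2
      obtain ⟨v, hv1, hv2, hv3, hv4⟩ := hloc (g ζ) (hgK ζ h1 h2)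
      exact ⟨v, hv1, (hgat ζ h2).eventually hv2, hv3, hv4⟩)
    (by
      rw [hg0]
      exact hP0)
    (ρ₁ : ℂ) (by rw [hρn]; exact hρ₁C) (by rw [hρn]; exact hρ₁N)
    (by
      rw [hgρ]
      exact (hAa x hx1 hx2).1)
    (by
      have h7 := hgK (ρ₁ : ℂ) (by rw [hρn]; exact hρ₁C) (by rw [hρn]; exact hρ₁N)
      rw [hgρ] at h7 ⊢
      exact (hAa x hx1 hx2).2 h7)
  rw [hρn] at hconc
  rcases hconc with h8 | h8
  · exact lt_irrefl _ h8
  · rw [hρ₁, mul_assoc, ← he2K] at h8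
    exact lt_asymm h8 hNK

/-- The two forms of Lemma H. -/
theorem S_H_of (h : Pool.Agent.N465591.S_H) : S_H := by
  intro C1 c1 ε hC1 hc1 hε
  obtain ⟨K, hK, hHK⟩ := h C1 c1 ε hC1 hc1 hε
  refine ⟨K, hK, ?_⟩
  intro C R P nn c0 hC hCR hP hloc hP0 z h1 h2 h3 h4
  refine hHK c0 P nn C R hC hP ?_ ?_ hP0 z h1 h2 h3 h4
  · intro z h1 h2
    obtain ⟨v, hv1, hv2, hv3, hv4⟩ := hloc z h1 h2
    refine ⟨v, hv1, hv2, ?_, ?_⟩
    · rw [hv2.self_of_nhds]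
      exact hv3
    · intro h5 h6
      rcases hv4 h5 with h7 | h7
      · exact absurd h7 h6
      · exact h7.2
  · intro z h1 h2 h5 h6
    obtain ⟨v, hv1, hv2, hv3, hv4⟩ := hloc z h1 h2
    rcases hv4 h5 with h7 | h7
    · exact absurd h7 h6
    · exact h7.1

end Pool.Agent.Lib.MP_465591_an.NC
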