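import Pool.Agent.Lib.MP_465591_an.N.C.Sch
import Pool.Agent.Lib.MP_465591_an.N.C.Desc
import Pool.Agent.Lib.MP_465591_an.N.C.Main
import Pool.Agent.Lib.MP_465591_an.One
import Pool.Agent.Lib.MP_465591_an.ZC
import Pool.Agent.Lib.MP_465591_an.Red
import Pool.Agent.Lib.MP_465591_an.Osg
import Pool.Agent.Lib.MP_465591_an.Inv
import Pool.Agent.Lib.MP_465591_an.Pick
import Pool.Agent.Lib.MP_465591_an.Near
import Pool.Agent.Lib.MP_465591_an.Sur
import Pool.Agent.Lib.MP_465591_an.Tr

/-!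
# MP_465591_an, THEOREM N, part C: everything from Lemma H
-/

set_option autoImplicit false

namespace Pool.Agent.Lib.MP_465591_an.NC

/-- Part C. -/
theorem cmain (hH : Pool.Agent.N465591.S_H) : S_Cmain := by
  have hOsg : S_Osg := t_Osg t_One t_ZC t_Red
  have hInv : S_Inv := t_Inv hOsg
  have hNear : S_Near := t_Near t_Pick
  have hSur : S_Sur := t_Sur hNear
  have hTr : S_Tr := t_Tr hInv
  exact t_Cmain (S_H_of hH) (t_Dec t_Sch hTr) (t_DesA hInv hNear hSur hTr) (t_Con hInv)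

end Pool.Agent.Lib.MP_465591_an.NC
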