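import Pool.Agent.Lib.MP_465591_an.N.C.Spec

/-!
# MP_465591_an, THEOREM N, part C: the lemma of Schwarz and Pick (`S_Sch`) and its iteration (`S_Dec`)
-/

set_option autoImplicit false

open Metric Set Filter Topology

namespace Pool.Agent.Lib.MP_465591_an.NC

namespace SchAux

theorem norm_ident (α w : ℂ) : ‖1 - (starRingEnd ℂ) α * w‖ ^ 2 =
    ‖w - α‖ ^ 2 + (1 - ‖α‖ ^ 2) * (1 - ‖w‖ ^ 2) := by
  rw [← Complex.normSq_eq_norm_sq, ← Complex.normSq_eq_norm_sq, ← Complex.normSq_eq_norm_sq,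
    ← Complex.normSq_eq_norm_sq, Complex.normSq_apply, Complex.normSq_apply, Complex.normSq_apply,
    Complex.normSq_apply]
  simp only [Complex.sub_re, Complex.sub_im, Complex.one_re, Complex.one_im, Complex.mul_re,
    Complex.mul_im, Complex.conj_re, Complex.conj_im]
  ring

/-- The lemma of Schwarz and Pick. -/
theorem pick (G : ℂ → ℂ) (hd : DifferentiableOn ℂ G (ball 0 1))
    (hb : ∀ x ∈ ball (0 : ℂ) 1, ‖G x‖ ≤ 1) (c : ℝ) (hc1 : c < 1) (h0 : ‖G 0‖ ≤ c) (x : ℂ)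
    (hx : x ∈ ball (0 : ℂ) 1) : ‖G x‖ ≤ (c + ‖x‖) / (1 + c * ‖x‖) := by
  have hr1 : ‖x‖ < 1 := by simpa using hx
  have hr0 : 0 ≤ ‖x‖ := norm_nonneg x
  set α : ℂ := G 0 with hα
  have hp0 : 0 ≤ ‖α‖ := norm_nonneg α
  have hp1 : ‖α‖ < 1 := lt_of_le_of_lt h0 hc1
  have hne : ∀ w : ℂ, ‖w‖ ≤ 1 → 1 - (starRingEnd ℂ) α * w ≠ 0 := by
    intro w hw h
    have h1 : ‖(starRingEnd ℂ) α * w‖ = 1 := by
      rw [show (starRingEnd ℂ) α * w = 1 by linear_combination -h]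
      simp
    rw [norm_mul, RCLike.norm_conj] at h1
    nlinarith [norm_nonneg w]
  have hf : DifferentiableOn ℂ (fun z => (G z - α) / (1 - (starRingEnd ℂ) α * G z)) (ball 0 1) :=
    (hd.sub_const _).div ((differentiableOn_const _).sub (hd.const_mul _))
      (fun z hz => hne _ (hb z hz))
  have hmaps : MapsTo (fun z => (G z - α) / (1 - (starRingEnd ℂ) α * G z)) (ball 0 1)
      (closedBall 0 1) := by
    intro z hz
    rw [mem_closedBall_zero_iff, norm_div]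
    refine div_le_one_of_le₀ ?_ (norm_nonneg _)
    refine (sq_le_sq₀ (norm_nonneg _) (norm_nonneg _)).1 ?_
    rw [norm_ident]
    have h1 : 0 ≤ 1 - ‖α‖ ^ 2 := by nlinarith
    have h2 : 0 ≤ 1 - ‖G z‖ ^ 2 := by nlinarith [hb z hz, norm_nonneg (G z)]
    nlinarith [mul_nonneg h1 h2]
  have hS := Complex.norm_le_norm_of_mapsTo_ball hf hmaps (by simp [hα]) hr1
  have hq : 0 < ‖1 - (starRingEnd ℂ) α * G x‖ := norm_pos_iff.2 (hne _ (hb x hx))
  rw [norm_div, div_le_iff₀ hq] at hS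
  have hA : ‖G x - α‖ ^ 2 ≤ ‖x‖ ^ 2 * ‖1 - (starRingEnd ℂ) α * G x‖ ^ 2 := by
    rw [← mul_pow]
    exact pow_le_pow_left₀ (norm_nonneg _) hS 2
  rw [norm_ident] at hA
  have hB : |‖G x‖ - ‖α‖| ≤ ‖G x - α‖ := abs_norm_sub_norm_le _ _
  have hB2 : (‖G x‖ - ‖α‖) ^ 2 ≤ ‖G x - α‖ ^ 2 := by
    rw [← sq_abs (‖G x‖ - ‖α‖)]
    exact pow_le_pow_left₀ (abs_nonneg _) hB 2
  have hm1 : ‖G x‖ ≤ 1 := hb x hx
  have hm0 : 0 ≤ ‖G x‖ := norm_nonneg _
  generalize ‖G x - α‖ ^ 2 = A at hA hB2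
  generalize ‖G x‖ = q at hA hB2 hm1 hm0 ⊢
  generalize ‖α‖ = p at hA hB2 hp0 hp1 h0
  generalize ‖x‖ = r at hA hr0 hr1 ⊢
  have e1 : (q - p) ^ 2 ≤ (r * (1 - p * q)) ^ 2 := by
    have e2 : (q - p) ^ 2 * (1 - r ^ 2) ≤ r ^ 2 * ((1 - p ^ 2) * (1 - q ^ 2)) := by
      have e3 : 0 ≤ 1 - r ^ 2 := by nlinarith
      nlinarith [mul_le_mul_of_nonneg_right hB2 e3]
    nlinarith
  have e4 : 0 ≤ r * (1 - p * q) := mul_nonneg hr0 (by nlinarith)
  have e5 : q - p ≤ r * (1 - p * q) := by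
    by_contra hcon
    have hcon' : r * (1 - p * q) < q - p := lt_of_not_ge hcon
    have : (r * (1 - p * q)) ^ 2 < (q - p) ^ 2 := pow_lt_pow_left₀ hcon' e4 (by norm_num)
    linarith
  have hc0 : 0 ≤ c := hp0.trans h0
  have e6 : 0 < 1 + c * r := by nlinarith [mul_nonneg hc0 hr0]
  rw [le_div_iff₀ e6]
  have e7 : q * (1 + p * r) ≤ p + r := by nlinarith
  have e8 : 0 < 1 + p * r := by nlinarith [mul_nonneg hp0 hr0]
  have e9 : (p + r) * (1 + c * r) ≤ (c + r) * (1 + p * r) := by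
    nlinarith [mul_nonneg (sub_nonneg.2 h0) (by nlinarith : (0 : ℝ) ≤ 1 - r ^ 2)]
  have e10 : (q * (1 + c * r)) * (1 + p * r) ≤ (c + r) * (1 + p * r) := by
    have := mul_le_mul_of_nonneg_right e7 e6.le
    nlinarith
  exact le_of_mul_le_mul_right e10 e8

end SchAux

theorem t_Sch : S_Sch := by
  intro n h hd hm h0 hder z hz
  by_cases hz0 : z = 0
  · subst hz0
    rw [h0]
    simp
  have hn0 : ‖z‖ ≠ 0 := norm_ne_zero_iff.mpr hz0
  have hnpos : 0 < ‖z‖ := norm_pos_iff.mpr hz0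
  have hn1 : ‖z‖ < 1 := by simpa using hz
  obtain ⟨v, hv⟩ : ∃ v : Cn n, v = ((‖z‖⁻¹ : ℝ) : ℂ) • z := ⟨_, rfl⟩
  have hvn : ‖v‖ = 1 := by
    rw [hv, norm_smul, Complex.norm_real, Real.norm_eq_abs, abs_of_pos (inv_pos.mpr hnpos),
      inv_mul_cancel₀ hn0]
  have hzv : ((‖z‖ : ℝ) : ℂ) • v = z := by
    rw [hv, smul_smul, ← Complex.ofReal_mul, mul_inv_cancel₀ hn0, Complex.ofReal_one, one_smul]
  have hmaps : MapsTo (fun x : ℂ => x • v) (ball (0 : ℂ) 1) (ball (0 : Cn n) 1) := by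
    intro x hx
    simp only [mem_ball_zero_iff] at hx ⊢
    rw [norm_smul, hvn, mul_one]
    exact hx
  obtain ⟨φ, hφ⟩ : ∃ φ : ℂ → Cn n, φ = fun x : ℂ => h (x • v) := ⟨_, rfl⟩
  have hφd : DifferentiableOn ℂ φ (ball 0 1) := by
    rw [hφ]
    exact hd.comp ((differentiable_id.smul_const v).differentiableOn) hmaps
  have hφ0 : φ 0 = 0 := by rw [hφ]; simp [h0]
  have hφm : MapsTo φ (ball (0 : ℂ) 1) (closedBall (φ 0) 1) := by
    intro x hx
    rw [hφ0]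
    apply ball_subset_closedBall
    rw [hφ]
    exact hm (hmaps hx)
  obtain ⟨k, hk⟩ : ∃ k : ℂ → Cn n, k = dslope φ 0 := ⟨_, rfl⟩
  have hkn : ∀ x ∈ ball (0 : ℂ) 1, ‖k x‖ ≤ 1 := by
    intro x hx
    have := Complex.norm_dslope_le_div_of_mapsTo_ball hφd hφm hx
    rw [hk]
    simpa using this
  have hkd : DifferentiableOn ℂ k (ball 0 1) := by
    rw [hk]
    exact (Complex.differentiableOn_dslope (ball_mem_nhds 0 one_pos)).mpr hφd
  have hφk : ∀ x : ℂ, φ x = x • k x := by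
    intro x
    have := sub_smul_dslope φ 0 x
    rw [hφ0, sub_zero, sub_zero] at this
    rw [hk, this]
  have hzc : ((‖z‖ : ℝ) : ℂ) ∈ ball (0 : ℂ) 1 := by
    rw [mem_ball_zero_iff, Complex.norm_real, Real.norm_eq_abs, abs_of_pos hnpos]
    exact hn1
  have hnz : ‖((‖z‖ : ℝ) : ℂ)‖ = ‖z‖ := by
    rw [Complex.norm_real, Real.norm_eq_abs, abs_of_pos hnpos]
  have hhz : h z = ((‖z‖ : ℝ) : ℂ) • k ((‖z‖ : ℝ) : ℂ) := by
    rw [← hφk, hφ]
    simp only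
    rw [hzv]
  have hk0 : k 0 = ((Real.exp (-1) : ℝ) : ℂ) • v := by
    rw [hk, dslope_same]
    have e1 : HasFDerivAt h (fderiv ℂ h 0) ((0 : ℂ) • v) := by
      rw [zero_smul]
      exact (hd.differentiableAt (ball_mem_nhds 0 one_pos)).hasFDerivAt
    have e2 : HasDerivAt (fun x : ℂ => x • v) ((1 : ℂ) • v) 0 := (hasDerivAt_id (0 : ℂ)).smul_const v
    have e3 := e1.comp_hasDerivAt (0 : ℂ) e2
    have e4 : HasDerivAt φ ((fderiv ℂ h 0) ((1 : ℂ) • v)) 0 := by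
      rw [hφ]; exact e3
    rw [e4.deriv, hder]
    simp
  rw [hhz, norm_smul, hnz]
  refine mul_le_mul_of_nonneg_left ?_ hnpos.le
  obtain ⟨κ, hκ⟩ : ∃ κ : Cn n, κ = k ((‖z‖ : ℝ) : ℂ) := ⟨_, rfl⟩
  rw [← hκ]
  have hc : (0 : ℝ) < Real.exp (-1) := Real.exp_pos _
  have hc1 : Real.exp (-1) < 1 := by rw [Real.exp_lt_one_iff]; norm_num
  by_cases hκ0 : κ = 0
  · rw [hκ0, norm_zero]
    positivity
  have hκn : ‖κ‖ ≠ 0 := norm_ne_zero_iff.mpr hκ0
  have hκp : 0 < ‖κ‖ := norm_pos_iff.mpr hκ0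
  obtain ⟨u, hu⟩ : ∃ u : Cn n, u = ((‖κ‖⁻¹ : ℝ) : ℂ) • κ := ⟨_, rfl⟩
  have hun : ‖u‖ = 1 := by
    rw [hu, norm_smul, Complex.norm_real, Real.norm_eq_abs, abs_of_pos (inv_pos.mpr hκp),
      inv_mul_cancel₀ hκn]
  have huκ : ((‖κ‖ : ℝ) : ℂ) • u = κ := by
    rw [hu, smul_smul, ← Complex.ofReal_mul, mul_inv_cancel₀ hκn, Complex.ofReal_one, one_smul]
  have hGd : DifferentiableOn ℂ (fun x => inner ℂ u (k x)) (ball 0 1) :=
    ((innerSL ℂ u).differentiable.comp_differentiableOn hkd)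
  have hGn : ∀ x ∈ ball (0 : ℂ) 1, ‖inner ℂ u (k x)‖ ≤ 1 := by
    intro x hx
    calc ‖inner ℂ u (k x)‖ ≤ ‖u‖ * ‖k x‖ := norm_inner_le_norm _ _
      _ ≤ 1 * 1 := by
          rw [hun]
          exact mul_le_mul_of_nonneg_left (hkn x hx) zero_le_one
      _ = 1 := one_mul 1
  have hG0 : ‖inner ℂ u (k 0)‖ ≤ Real.exp (-1) := by
    rw [hk0]
    calc ‖inner ℂ u (((Real.exp (-1) : ℝ) : ℂ) • v)‖ ≤ ‖u‖ * ‖((Real.exp (-1) : ℝ) : ℂ) • v‖ :=
          norm_inner_le_norm _ _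
      _ = Real.exp (-1) := by
          rw [hun, norm_smul, hvn, Complex.norm_real, Real.norm_eq_abs, abs_of_pos hc]
          ring
  have hP := SchAux.pick (fun x => inner ℂ u (k x)) hGd hGn (Real.exp (-1)) hc1 hG0 _ hzc
  rw [hnz] at hP
  refine le_trans (le_of_eq ?_) hP
  rw [← hκ]
  conv_rhs => rw [← huκ]
  rw [inner_smul_right, inner_self_eq_norm_sq_to_K, hun]
  simp

theorem t_Dec (hSch : S_Sch) (hTr : S_Tr) : S_Dec := by
  intro s hs0 hs1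
  have hc : (0 : ℝ) < Real.exp (-1) := Real.exp_pos _
  have hc1 : Real.exp (-1) < 1 := by rw [Real.exp_lt_one_iff]; norm_num
  have hce : Real.exp (-1) * Real.exp 1 = 1 := by rw [← Real.exp_add]; norm_num
  obtain ⟨c, hcd⟩ : ∃ c : ℝ, c = Real.exp (-1) := ⟨_, rfl⟩
  rw [← hcd] at hc hc1 hce
  obtain ⟨θ, hθ⟩ : ∃ θ : ℝ, θ = (c + s) / (1 + c * s) := ⟨_, rfl⟩
  have hcs : 0 < 1 + c * s := by nlinarith [mul_nonneg hc.le hs0]
  have hθ0 : 0 < θ := by rw [hθ]; exact div_pos (by linarith) hcs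
  have hθ1 : θ < 1 := by
    rw [hθ, div_lt_one hcs]
    nlinarith
  have hq : ∀ x : ℝ, 0 ≤ x → x ≤ s → (c + x) / (1 + c * x) ≤ θ ∧
      (c + x) / (1 + c * x) ≤ c * Real.exp (Real.exp 1 * x) := by
    intro x hx0 hxs
    have h1 : 0 < 1 + c * x := by nlinarith [mul_nonneg hc.le hx0]
    refine ⟨?_, ?_⟩
    · rw [hθ, div_le_div_iff₀ h1 hcs]
      nlinarith [mul_nonneg (sub_nonneg.2 hxs) (by nlinarith : (0 : ℝ) ≤ 1 - c ^ 2)]
    · rw [div_le_iff₀ h1]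
      have h2 : c + x ≤ c * Real.exp (Real.exp 1 * x) := by
        have h3 := Real.add_one_le_exp (Real.exp 1 * x)
        have h4 := mul_le_mul_of_nonneg_left h3 hc.le
        have h5 : c * (Real.exp 1 * x + 1) = (c * Real.exp 1) * x + c := by ring
        rw [h5, hce] at h4
        linarith
      have h6 : 0 ≤ c * Real.exp (Real.exp 1 * x) := mul_nonneg hc.le (Real.exp_pos _).le
      have h7 : 1 ≤ 1 + c * x := by nlinarith [mul_nonneg hc.le hx0]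
      nlinarith [mul_le_mul_of_nonneg_left h7 h6]
  refine ⟨s * Real.exp (Real.exp 1 * s * (1 - θ)⁻¹) + 1, by positivity, ?_⟩
  intro n L hL N z w hz hw hLw
  have key : ∀ N : ℕ, ∃ y : Cn n, ‖y‖ < 1 ∧ L N y = L 0 z ∧ ‖y‖ ≤ s * θ ^ N ∧
      ‖y‖ ≤ s * c ^ N * Real.exp (Real.exp 1 * s * ∑ j ∈ Finset.range N, θ ^ j) := by
    intro N
    induction N with
    | zero =>
      refine ⟨z, lt_of_le_of_lt hz hs1, ?_, ?_, ?_⟩
      · rw [Nat.cast_zero]
      · simpa using hz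
      · simpa using hz
    | succ N ih =>
      obtain ⟨y, hy1, hLy, hy2, hy3⟩ := ih
      obtain ⟨h, hd, hm, hh0, hdd, -, hLh⟩ := hTr n L hL N (N + 1 : ℕ) (Nat.cast_nonneg N)
        (by push_cast; linarith)
      have e1 : -(((N + 1 : ℕ) : ℝ) - (N : ℝ)) = -1 := by push_cast; ring
      rw [e1] at hdd
      have hyb : y ∈ ball (0 : Cn n) 1 := by rwa [mem_ball_zero_iff]
      have hhy := hSch n h hd hm hh0 hdd y hyb
      rw [← hcd] at hhy
      have hys : ‖y‖ ≤ s := hy2.trans (mul_le_of_le_one_right hs0 (pow_le_one₀ hθ0.le hθ1.le))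
      obtain ⟨q1, q2⟩ := hq ‖y‖ (norm_nonneg y) hys
      have hhy1 : ‖h y‖ < 1 := by
        have := hm hyb
        rwa [mem_ball_zero_iff] at this
      refine ⟨h y, hhy1, ?_, ?_, ?_⟩
      · rw [hLh y hyb, hLy]
      · calc ‖h y‖ ≤ ‖y‖ * ((c + ‖y‖) / (1 + c * ‖y‖)) := hhy
          _ ≤ (s * θ ^ N) * θ := mul_le_mul hy2 q1 (by positivity) (by positivity)
          _ = s * θ ^ (N + 1) := by ring
      · have q3 : (c + ‖y‖) / (1 + c * ‖y‖) ≤ c * Real.exp (Real.exp 1 * s * θ ^ N) := by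
          refine q2.trans (mul_le_mul_of_nonneg_left (Real.exp_le_exp.2 ?_) hc.le)
          rw [mul_assoc]
          exact mul_le_mul_of_nonneg_left hy2 (Real.exp_pos _).le
        calc ‖h y‖ ≤ ‖y‖ * ((c + ‖y‖) / (1 + c * ‖y‖)) := hhy
          _ ≤ (s * c ^ N * Real.exp (Real.exp 1 * s * ∑ j ∈ Finset.range N, θ ^ j)) *
              (c * Real.exp (Real.exp 1 * s * θ ^ N)) :=
                mul_le_mul hy3 q3 (by positivity) (by positivity)
          _ = s * c ^ (N + 1) * Real.exp (Real.exp 1 * s * ∑ j ∈ Finset.range (N + 1), θ ^ j) := by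
              rw [Finset.sum_range_succ, mul_add, Real.exp_add]
              ring
  obtain ⟨y, hy1, hLy, -, hy3⟩ := key N
  have hwy : w = y := by
    refine hL.inj N (Nat.cast_nonneg N) ?_ ?_ (hLw.trans hLy.symm)
    · rwa [mem_ball_zero_iff]
    · rwa [mem_ball_zero_iff]
  rw [hwy]
  have hsum : ∑ j ∈ Finset.range N, θ ^ j ≤ (1 - θ)⁻¹ := by
    rw [← tsum_geometric_of_lt_one hθ0.le hθ1]
    exact (summable_geometric_of_lt_one hθ0.le hθ1).sum_le_tsum _ (fun j _ => pow_nonneg hθ0.le j)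
  have hcN : c ^ N = Real.exp (-(N : ℝ)) := by
    rw [hcd, ← Real.exp_nat_mul]
    congr 1
    ring
  rw [hcN] at hy3
  refine hy3.trans ?_
  have h9 : Real.exp (Real.exp 1 * s * ∑ j ∈ Finset.range N, θ ^ j) ≤
      Real.exp (Real.exp 1 * s * (1 - θ)⁻¹) := by
    apply Real.exp_le_exp.2
    exact mul_le_mul_of_nonneg_left hsum (mul_nonneg (Real.exp_pos _).le hs0)
  have h10 : 0 < Real.exp (-(N : ℝ)) := Real.exp_pos _
  have h11 := mul_le_mul_of_nonneg_left h9 (mul_nonneg hs0 h10.le)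
  nlinarith

end Pool.Agent.Lib.MP_465591_an.NC
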